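import Mathlib
import Pool.Agent.Lib.MP_e32a7e_nt.Main

/-!
# Absolutely simple Weil polynomials over the prime field with any `p`-rank

For every prime `p` and all `0 ≤ f ≤ g` with `(g, f) ≠ (0, 0), (1, 0), (2, 0)` there is a Weil
polynomial over `𝔽_p` of degree `2 g` and `p`-rank `f` whose zeros keep the degree `2 g` under all
powers.
-/

open Polynomial

namespace Pool.Agent.Results.MP_e32a7e_nt.WeilAllPRanks

/-- Let `p` be a prime and `0 ≤ f ≤ g` with `g ≥ 3` or `f ≥ 1`. There is a monic integer polynomial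
`P` of degree `2 g`, all of whose complex zeros `z` have absolute value `√p` and are such that all
powers `z ^ n`, `n ≥ 1`, have degree `2 g` over `ℚ`, and such that zero is a zero of multiplicity
exactly `2 g - f` of `P` modulo `p`. -/
theorem result (p : ℕ) (hp : p.Prime) (g f : ℕ) (hfg : f ≤ g) (h : 3 ≤ g ∨ 1 ≤ f) :
    ∃ P : ℤ[X], P.Monic ∧ P.natDegree = 2 * g ∧
      (∀ z : ℂ, aeval z P = 0 → ‖z‖ = √(p : ℝ)) ∧
      (∀ z : ℂ, aeval z P = 0 → ∀ n : ℕ, 1 ≤ n → (minpoly ℚ (z ^ n)).natDegree = 2 * g) ∧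
      (P.map (Int.castRingHom (ZMod p))).rootMultiplicity 0 = 2 * g - f :=
  Pool.Agent.MP_e32a7e_nt.good_all p hp g f hfg h

end Pool.Agent.Results.MP_e32a7e_nt.WeilAllPRanks
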